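import Mathlib
import Pool.Agent.H790R3.RB.St2
import Pool.Agent.H713R5.QJ.Defs

/-! Statements of the project QR (helper757, MP_8f2e1c_an): perturbation of indifferent cycles of
rational maps. Adapted from `Pool.Agent.H713R5.QJ.Defs` (the case of polynomials). -/

set_option autoImplicit false

open Topology Filter Metric Set Polynomial MeasureTheory
open scoped OnePoint
open Pool.Agent.H790R3.RB (CV hF cr ND wr rt sp pr hc pol Sink Attd HypTop)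

namespace Pool.Agent.W757.QR

/-! ### Rational functions in the plane -/

/-- the rational function `P / Q` in the plane (value `0` at the poles) -/
noncomputable def fr (P Q : ℂ[X]) (z : ℂ) : ℂ := P.eval z / Q.eval z

/-- numerator of the derivative -/
noncomputable def wn (P Q : ℂ[X]) : ℂ[X] := derivative P * Q - P * derivative Q

/-- the derivative of `P / Q` -/
noncomputable def d1 (P Q : ℂ[X]) (z : ℂ) : ℂ := (wn P Q).eval z / Q.eval z ^ 2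

/-- the second derivative of `P / Q` -/
noncomputable def d2 (P Q : ℂ[X]) (z : ℂ) : ℂ :=
  ((derivative (wn P Q)).eval z * Q.eval z - 2 * (wn P Q).eval z * (derivative Q).eval z) /
    Q.eval z ^ 3

/-- the value of `H / Q ^ 2` -/
noncomputable def hv (Q H : ℂ[X]) (z : ℂ) : ℂ := H.eval z / Q.eval z ^ 2

/-- the derivative of `H / Q ^ 2` -/
noncomputable def hd (Q H : ℂ[X]) (z : ℂ) : ℂ :=
  ((derivative H).eval z * Q.eval z - 2 * H.eval z * (derivative Q).eval z) / Q.eval z ^ 3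

/-- `P / Q` is a rational map of degree `d` -/
def RM (d : ℕ) (P Q : ℂ[X]) : Prop := 2 ≤ d ∧ IsCoprime P Q ∧ max P.natDegree Q.natDegree = d

/-- `Z` is a finite union of cycles of finite points without critical points -/
def Cyc (P Q : ℂ[X]) (Z : Finset ℂ) : Prop :=
  (∀ z ∈ Z, Q.eval z ≠ 0 ∧ (wn P Q).eval z ≠ 0 ∧ fr P Q z ∈ Z) ∧
    ∀ z ∈ Z, ∀ z' ∈ Z, fr P Q z = fr P Q z' → z = z'

/-- the cycles in `Z` are indifferent -/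
def Indf (P Q : ℂ[X]) (Z : Finset ℂ) : Prop :=
  ∀ z ∈ Z, ∀ p : ℕ, 0 < p → (fr P Q)^[p] z = z → ‖deriv ((fr P Q)^[p]) z‖ = 1

/-- `K` is a compact set which contains its preimage in its interior -/
def Trap (P Q : ℂ[X]) (K : Set ℂ) : Prop :=
  IsCompact K ∧ ∀ z : ℂ, Q.eval z ≠ 0 → fr P Q z ∈ K → z ∈ interior K

/-- the quadratic differential with double poles at the points of `Z` -/
noncomputable def qd (Z : Finset ℂ) (a b : ℂ → ℂ) (ζ : ℂ) : ℂ :=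
  ∑ z ∈ Z, (a z / (ζ - z) ^ 2 + b z / (ζ - z))

/-- the preimages of `y` -/
noncomputable def pre (P Q : ℂ[X]) (y : ℂ) : Finset ℂ := (P - C y * Q).roots.toFinset

/-- `y` is a generic value -/
def Gv (d : ℕ) (P Q : ℂ[X]) (y : ℂ) : Prop :=
  (P - C y * Q).natDegree = d ∧ ∀ ζ ∈ pre P Q y, (wn P Q).eval ζ ≠ 0

/-- Area formula for a rational function, with multiplicity. -/
def StAF : Prop :=
  ∀ (d : ℕ) (P Q : ℂ[X]) (g : ℂ → ENNReal) (E : Set ℂ), RM d P Q → Measurable g →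
    MeasurableSet E →
    ∫⁻ w in E, ∑ ζ ∈ pre P Q w, g ζ =
      ∫⁻ z in {z : ℂ | Q.eval z ≠ 0 ∧ fr P Q z ∈ E}, g z * ENNReal.ofReal (‖d1 P Q z‖ ^ 2)

/-- Duality: if the functional with coefficients `a`, `b` vanishes on all `H / Q ^ 2` with `H` of
degree at most `2 d` then the push-forward of the quadratic differential is the differential. -/
def StPF : Prop :=
  ∀ (d : ℕ) (P Q : ℂ[X]) (Z : Finset ℂ) (a b : ℂ → ℂ), RM d P Q → Cyc P Q Z →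
    (∀ z ∈ Z, a (fr P Q z) = a z) →
    (∀ z ∈ Z, b (fr P Q z) = b z / d1 P Q z - a z * d2 P Q z / d1 P Q z ^ 2) →
    (∀ H : ℂ[X], H.natDegree ≤ 2 * d →
      ∑ z ∈ Z, (a z * (hd Q H z / d1 P Q z - hv Q H z * d2 P Q z / d1 P Q z ^ 2) +
        b z * (hv Q H z / d1 P Q z)) = 0) →
    ∀ y : ℂ, y ∉ Z → Gv d P Q y →
      ∑ ζ ∈ pre P Q y, qd Z a b ζ / d1 P Q ζ ^ 2 = qd Z a b y

/-- A quadratic differential with double poles at indifferent cycles which is invariant under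
push-forward vanishes, if the cycles are contained in a compact set which contains its preimage in
its interior. -/
def StINJ : Prop :=
  StAF → ∀ (d : ℕ) (P Q : ℂ[X]) (Z : Finset ℂ) (K : Set ℂ) (a b : ℂ → ℂ) (wt : ℂ → ℝ), RM d P Q →
    Cyc P Q Z → Trap P Q K → (∀ z ∈ Z, z ∈ K) →
    (∀ z ∈ Z, 0 < wt z ∧ wt (fr P Q z) = ‖d1 P Q z‖ * wt z) →
    (∀ y : ℂ, y ∉ Z → Gv d P Q y → ∑ ζ ∈ pre P Q y, qd Z a b ζ / d1 P Q ζ ^ 2 = qd Z a b y) →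
    ∀ z ∈ Z, a z = 0 ∧ b z = 0

/-- The linearized equations for the cycles and their multipliers can be solved. -/
def StSURL : Prop :=
  StAF → StPF → StINJ → ∀ (d : ℕ) (P Q : ℂ[X]) (Z : Finset ℂ) (K : Set ℂ), RM d P Q →
    Cyc P Q Z → Trap P Q K → (∀ z ∈ Z, z ∈ K) → Indf P Q Z →
    ∀ e κ : ℂ → ℂ, (∀ z ∈ Z, κ (fr P Q z) = κ z) →
    ∃ (H : ℂ[X]) (u : ℂ → ℂ), H.natDegree ≤ 2 * d ∧
      (∀ z ∈ Z, u (fr P Q z) - d1 P Q z * u z - hv Q H z = e z) ∧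
      ∀ z ∈ Z, ∑ i ∈ Finset.range (Function.minimalPeriod (fr P Q) z),
        (hd Q H ((fr P Q)^[i] z) + d2 P Q ((fr P Q)^[i] z) * u ((fr P Q)^[i] z)) /
          d1 P Q ((fr P Q)^[i] z) = κ z

/-- Every polynomial of degree at most `2 d` is of the form `A Q - P B`. -/
def StSYL : Prop :=
  ∀ (d : ℕ) (P Q H : ℂ[X]), RM d P Q → H.natDegree ≤ 2 * d →
    ∃ A B : ℂ[X], A.natDegree ≤ d ∧ B.natDegree ≤ d ∧ A * Q - P * B = H

/-! ### Curves of rational maps -/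

/-- numerator and denominator of the map with coefficient vector `x` -/
noncomputable def nu {d : ℕ} (x : CV d) : ℂ[X] := pol x 0
@[inherit_doc nu] noncomputable def de {d : ℕ} (x : CV d) : ℂ[X] := pol x 1

/-- the rational map with coefficient vector `x` in the plane -/
noncomputable def fx {d : ℕ} (x : CV d) : ℂ → ℂ := fr (nu x) (de x)

/-- the orbit of `z` consists of finite points -/
def Fin' {d : ℕ} (x : CV d) (z : ℂ) : Prop := ∀ j : ℕ, (de x).eval ((fx x)^[j] z) ≠ 0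

/-- A curve of rational maps along which all the multipliers of the cycles in `Z` are multiplied
by powers of `1 - t`. -/
def StCURVE : Prop :=
  StSYL → ∀ (d : ℕ) (x : CV d) (Z : Finset ℂ), 2 ≤ d → ND x → Cyc (nu x) (de x) Z →
    Indf (nu x) (de x) Z →
    -- the linearized equations can be solved
    (∀ e κ : ℂ → ℂ, (∀ z ∈ Z, κ (fx x z) = κ z) →
      ∃ (H : ℂ[X]) (u : ℂ → ℂ), H.natDegree ≤ 2 * d ∧
        (∀ z ∈ Z, u (fx x z) - d1 (nu x) (de x) z * u z - hv (de x) H z = e z) ∧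
        ∀ z ∈ Z, ∑ i ∈ Finset.range (Function.minimalPeriod (fx x) z),
          (hd (de x) H ((fx x)^[i] z) + d2 (nu x) (de x) ((fx x)^[i] z) * u ((fx x)^[i] z)) /
            d1 (nu x) (de x) ((fx x)^[i] z) = κ z) →
    ∃ (t₀ C₀ : ℝ) (X : ℝ → CV d) (y : ℝ → ℂ → ℂ) (kk : ℂ → ℕ → ℕ), 0 < t₀ ∧ 0 < C₀ ∧
      (∀ z ∈ Z, ∀ p : ℕ, 0 < p → (fx x)^[p] z = z → 0 < kk z p) ∧
      ∀ t : ℝ, 0 ≤ t → t ≤ t₀ → ND (X t) ∧ ‖X t - x‖ ≤ C₀ * t ∧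
      ∀ z ∈ Z, ‖y t z - z‖ ≤ C₀ * t ∧ Fin' (X t) (y t z) ∧ fx (X t) (y t z) = y t (fx x z) ∧
        ∀ p : ℕ, 0 < p → (fx x)^[p] z = z →
          deriv ((fx (X t))^[p]) (y t z) = ((1 - t : ℝ) : ℂ) ^ (kk z p) * deriv ((fx x)^[p]) z

/-- perturbation of one cycle with multiplier `ρ` -/
structure PC {d : ℕ} (x : CV d) (p : ℕ) (a ρ : ℂ) (X : ℝ → CV d) (y : ℝ → ℂ) (k : ℕ)
    (t₀ C₀ : ℝ) : Prop where
  hd : 2 ≤ d
  nd : ND x
  t0 : 0 < t₀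
  C0 : 0 < C₀
  kp : 0 < k
  pp : 0 < p
  fin : Fin' x a
  fix : (fx x)^[p] a = a
  mul : deriv ((fx x)^[p]) a = ρ
  ndt : ∀ t : ℝ, 0 ≤ t → t ≤ t₀ → ND (X t)
  cf : ∀ t : ℝ, 0 ≤ t → t ≤ t₀ → ‖X t - x‖ ≤ C₀ * t
  fint : ∀ t : ℝ, 0 ≤ t → t ≤ t₀ → Fin' (X t) (y t)
  yx : ∀ t : ℝ, 0 ≤ t → t ≤ t₀ → ‖y t - a‖ ≤ C₀ * t
  fixt : ∀ t : ℝ, 0 ≤ t → t ≤ t₀ → (fx (X t))^[p] (y t) = y t
  mult : ∀ t : ℝ, 0 ≤ t → t ≤ t₀ → deriv ((fx (X t))^[p]) (y t) = ((1 - t : ℝ) : ℂ) ^ k * ρ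

/-- Sinks in the plane and on the sphere. -/
def StSNK : Prop :=
  ∀ (d : ℕ) (x : CV d), 2 ≤ d → ND x →
    (∀ z : ℂ, Fin' x z → ∀ j : ℕ, (sp x)^[j] (z : OnePoint ℂ) = (((fx x)^[j] z : ℂ) : OnePoint ℂ)) ∧
    (∀ z : ℂ, (∀ j : ℕ, (sp x)^[j] (z : OnePoint ℂ) ≠ ∞) → Fin' x z) ∧
    ∀ (p : ℕ) (a : ℂ), 0 < p → Fin' x a → (fx x)^[p] a = a → ‖deriv ((fx x)^[p]) a‖ < 1 →
      Sink (sp x) p (a : OnePoint ℂ)

/-- Points of parabolic basins become attracted. -/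
def StAPP : Prop :=
  StSNK → Pool.Agent.H713R5.QJ.StPBL → ∀ (d : ℕ) (x : CV d) (p : ℕ) (a : ℂ) (X : ℝ → CV d)
    (y : ℝ → ℂ) (k : ℕ) (t₀ C₀ : ℝ) (z : ℂ), PC x p a 1 X y k t₀ C₀ → Fin' x z →
    Tendsto (fun i : ℕ => (fx x)^[p * i] z) atTop (𝓝 a) → (∀ i : ℕ, (fx x)^[p * i] z ≠ a) →
    ∃ δ t₁ : ℝ, 0 < δ ∧ 0 < t₁ ∧ ∀ t : ℝ, 0 < t → t < t₁ → ∀ z' ∈ ball z δ,
      Attd (sp (X t)) (z' : OnePoint ℂ)

/-- Points of Siegel discs and of their preimages become attracted. -/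
def StAPS : Prop :=
  StSNK → Pool.Agent.H713R5.QJ.StSGL → ∀ (d : ℕ) (x : CV d) (n p : ℕ) (ρ : ℂ) (r : ℝ) (h : ℂ → ℂ)
    (X : ℝ → CV d) (y : ℝ → ℂ) (k : ℕ) (t₀ C₀ : ℝ) (z : ℂ), PC x p (h 0) ρ X y k t₀ C₀ → 0 < r →
    ‖ρ‖ = 1 → (∀ m : ℕ, 0 < m → ρ ^ m ≠ 1) → DifferentiableOn ℂ h (ball 0 r) →
    InjOn h (ball 0 r) → (∀ w ∈ ball (0 : ℂ) r, Fin' x (h w) ∧ (fx x)^[p] (h w) = h (ρ * w)) →
    Fin' x z → (fx x)^[n] z ∈ h '' ball 0 r →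
    ∃ δ t₁ : ℝ, 0 < δ ∧ 0 < t₁ ∧ ∀ t : ℝ, 0 < t → t < t₁ → ∀ z' ∈ ball z δ,
      Attd (sp (X t)) (z' : OnePoint ℂ)

/-- Attracted points are stable. -/
def StOPA : Prop :=
  ∀ (d : ℕ) (x : CV d) (z : OnePoint ℂ), 2 ≤ d → ND x → Attd (sp x) z →
    ∃ (σ : ℝ) (U : Set (OnePoint ℂ)), 0 < σ ∧ U ∈ 𝓝 z ∧ ∀ x' : CV d, ‖x' - x‖ < σ →
      ND x' ∧ ∀ z' ∈ U, Attd (sp x') z'

/-- Near a map with an attracting base point at infinity there is a common trap, whose complement is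
attracted. -/
def StTRAP : Prop :=
  ∀ (d : ℕ) (x₀ : CV d) (p : ℕ), 2 ≤ d → ND x₀ → Sink (sp x₀) p ∞ →
    ∃ (K : Set ℂ) (σ : ℝ), 0 < σ ∧ IsCompact K ∧ ∀ x : CV d, ‖x - x₀‖ < σ → ND x ∧
      Trap (nu x) (de x) K ∧ Attd (sp x) ∞ ∧ ∀ z : ℂ, z ∉ K → Attd (sp x) (z : OnePoint ℂ)

/-- `z` is in the basin of a parabolic cycle of finite points -/
def Para {d : ℕ} (x : CV d) (z : ℂ) : Prop :=
  ∃ (p : ℕ) (a : ℂ), 0 < p ∧ Fin' x a ∧ (fx x)^[p] a = a ∧ deriv ((fx x)^[p]) a = 1 ∧ Fin' x z ∧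
    Tendsto (fun i : ℕ => (fx x)^[p * i] z) atTop (𝓝 a) ∧ ∀ i : ℕ, (fx x)^[p * i] z ≠ a

/-- `z` is mapped into a Siegel disc of finite points -/
def Sieg {d : ℕ} (x : CV d) (z : ℂ) : Prop :=
  ∃ (n p : ℕ) (r : ℝ) (h : ℂ → ℂ) (ρ : ℂ), 0 < p ∧ 0 < r ∧ ‖ρ‖ = 1 ∧ (∀ m : ℕ, 0 < m → ρ ^ m ≠ 1) ∧
    DifferentiableOn ℂ h (ball 0 r) ∧ InjOn h (ball 0 r) ∧
    (∀ w ∈ ball (0 : ℂ) r, Fin' x (h w) ∧ (fx x)^[p] (h w) = h (ρ * w)) ∧ Fin' x z ∧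
    (fx x)^[n] z ∈ h '' ball 0 r

/-- A map with a trap is a limit of maps whose non-attracted area is not larger than the area of
its Julia set. -/
def StAPX : Prop :=
  ∀ (d : ℕ) (x : CV d) (K : Set ℂ), 2 ≤ d → ND x → Trap (nu x) (de x) K → Attd (sp x) ∞ →
    (∀ z : ℂ, z ∉ K → Attd (sp x) (z : OnePoint ℂ)) → ∀ ε : ℝ, 0 < ε →
    ∃ x' : CV d, ‖x' - x‖ < ε ∧ ND x' ∧ volume {z : ℂ | ¬ Attd (sp x') (z : OnePoint ℂ)} ≤
      volume {z : ℂ | ¬ (Attd (sp x) (z : OnePoint ℂ) ∨ Para x z ∨ Sieg x z)} + ENNReal.ofReal ε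

end Pool.Agent.W757.QR
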